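import Mathlib
import Pool.Agent.K1H94.R.Final

/-!
The exponents of two bases have a large common divisor `g`, the third base has a large `S`-part:
the case of a fixed `g` (Ridout's theorem for the form `X (X ^ g ± Z ^ g)`).
-/

set_option autoImplicit false

namespace Pool.Agent.K1H94.G

open Polynomial
open Pool.Agent.K1H94.P (sPart)
open Pool.Agent.K1H94.R (norm_prod sPart_pos)
open Pool.Agent.Y670.RD (fv fvq rid_form')

/-- the polynomial `X ^ (g + 1) + τ X` -/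
noncomputable def gq (τ : ℤ) (g : ℕ) : ℤ[X] := X ^ (g + 1) + C τ * X

theorem gq_deg {τ : ℤ} {g : ℕ} (hg : 1 ≤ g) : (gq τ g).natDegree = g + 1 := by
  rw [gq, natDegree_add_eq_left_of_natDegree_lt, natDegree_X_pow]
  rw [natDegree_X_pow]
  exact lt_of_le_of_lt (natDegree_C_mul_le _ _) (by rw [natDegree_X]; omega)

theorem gq_sqf {τ : ℤ} (hτ : τ = 1 ∨ τ = -1) {g : ℕ} (hg : 1 ≤ g) :
    Squarefree ((gq τ g).map (Int.castRingHom ℚ)) := by
  have hτQ : (-(τ : ℚ)) ≠ 0 := by rcases hτ with rfl | rfl <;> norm_num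
  have h1 : (gq τ g).map (Int.castRingHom ℚ) = X * (X ^ g - C (-(τ : ℚ))) := by
    rw [gq, Polynomial.map_add, Polynomial.map_mul, Polynomial.map_pow, map_X, map_C, C_neg]
    simp only [eq_intCast]
    ring
  have hsep : (X ^ g - C (-(τ : ℚ))).Separable :=
    separable_X_pow_sub_C _ (by exact_mod_cast (by omega : g ≠ 0)) hτQ
  have hcop : IsCoprime (X : ℚ[X]) (X ^ g - C (-(τ : ℚ))) := by
    refine ⟨C ((-(τ : ℚ))⁻¹) * X ^ (g - 1), -C ((-(τ : ℚ))⁻¹), ?_⟩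
    have h2 : (C ((-(τ : ℚ))⁻¹) * X ^ (g - 1) * X : ℚ[X]) = C ((-(τ : ℚ))⁻¹) * X ^ g := by
      rw [mul_assoc, ← pow_succ, Nat.sub_add_cancel hg]
    rw [h2]
    have h3 : (C ((-(τ : ℚ))⁻¹) * X ^ g + -C ((-(τ : ℚ))⁻¹) * (X ^ g - C (-(τ : ℚ))) : ℚ[X]) =
        C ((-(τ : ℚ))⁻¹) * C (-(τ : ℚ)) := by ring
    rw [h3, ← C_mul, inv_mul_cancel₀ hτQ, C_1]
  rw [h1]
  exact (separable_X.mul hsep hcop).squarefree

theorem gq_val {τ : ℤ} {g : ℕ} (hg : 1 ≤ g) {s t : ℤ} (ht : t ≠ 0) :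
    fv (gq τ g).natDegree (gq τ g) s t = s * (s ^ g + τ * t ^ g) := by
  have h1 := fvq (le_refl (gq τ g).natDegree) (s := s) ht
  have htQ : (t : ℚ) ≠ 0 := by exact_mod_cast ht
  rw [gq_deg hg] at h1 ⊢
  have h2 : (aeval ((s : ℚ) / t) (gq τ g) : ℚ) = ((s : ℚ) / t) ^ (g + 1) + τ * ((s : ℚ) / t) := by
    rw [gq]
    simp
  rw [h2] at h1
  have h3 : ((fv (g + 1) (gq τ g) s t : ℤ) : ℚ) = ((s * (s ^ g + τ * t ^ g) : ℤ) : ℚ) := by
    rw [h1]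
    push_cast
    rw [div_pow, mul_add, pow_succ (s : ℚ) g, pow_succ (t : ℚ) g]
    field_simp
  exact_mod_cast h3

/-- the heights of the solutions are bounded, for each `g` -/
theorem fixed_bound {κ lam : ℝ} (hκ0 : 0 < κ) (hκ1 : κ ≤ 1) (hl1 : lam ≤ 1) {g : ℕ}
    (hg : 1 ≤ g) (hgκ : 2 < lam + κ * g) {S : Finset ℕ} (hS : ∀ p ∈ S, p.Prime) {τ : ℤ}
    (hτ : τ = 1 ∨ τ = -1) :
    ∃ B : ℕ, ∀ (x z y : ℕ) (σ : ℤ), 0 < x → 0 < z → 0 < y → (σ = 1 ∨ σ = -1) → Nat.Coprime x z →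
      (x : ℝ) ^ lam ≤ (sPart S x : ℝ) → (y : ℝ) ^ κ ≤ (sPart S y : ℝ) →
      (x : ℤ) ^ g + τ * (z : ℤ) ^ g = σ * y → x ≤ B ∧ z ≤ B := by
  set ε : ℝ := (lam + κ * g - 2) / 2 with hε
  have hε0 : 0 < ε := by rw [hε]; linarith
  obtain ⟨c₀, hc₀, hrid⟩ := rid_form' (gq τ g) (gq_sqf hτ hg) (by rw [gq_deg hg]; omega) S hS ε hε0
  obtain ⟨B, hB⟩ := exists_nat_ge ((2 / c₀) ^ (1 / ε))
  refine ⟨B, fun x z y σ hx hz hy hσ hcop hxS hyS heq => ?_⟩
  have hcopZ : IsCoprime (x : ℤ) (z : ℤ) := Nat.isCoprime_iff_coprime.2 hcop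
  have hval := gq_val (τ := τ) hg (s := (x : ℤ)) (t := (z : ℤ)) (by exact_mod_cast hz.ne')
  rw [heq] at hval
  have hxR : (0 : ℝ) < x := by exact_mod_cast hx
  have hyR : (0 : ℝ) < y := by exact_mod_cast hy
  have hzR : (0 : ℝ) < z := by exact_mod_cast hz
  have hne : (x : ℤ) * (σ * y) ≠ 0 := by
    have h1 : (x : ℤ) ≠ 0 := by exact_mod_cast hx.ne'
    have h2 : (y : ℤ) ≠ 0 := by exact_mod_cast hy.ne'
    have h3 : σ ≠ 0 := by rcases hσ with rfl | rfl <;> norm_num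
    exact mul_ne_zero h1 (mul_ne_zero h3 h2)
  have hmain := hrid (x : ℤ) (z : ℤ) hcopZ (by rw [hval]; exact hne)
  rw [hval] at hmain
  set H : ℝ := max |((x : ℤ) : ℝ)| |((z : ℤ) : ℝ)| with hH
  have hHx : (x : ℝ) ≤ H := by
    refine le_trans ?_ (le_max_left _ _)
    rw [Int.cast_natCast, abs_of_pos hxR]
  have hHz : (z : ℝ) ≤ H := by
    refine le_trans ?_ (le_max_right _ _)
    rw [Int.cast_natCast, abs_of_pos hzR]
  have hH1 : 1 ≤ H := le_trans (by exact_mod_cast hx) hHx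
  have hH0 : 0 < H := by linarith
  have habs : |((((x : ℤ) * (σ * y) : ℤ)) : ℝ)| = x * y := by
    push_cast
    rw [abs_mul, abs_mul, abs_of_pos hxR, abs_of_pos hyR]
    rcases hσ with rfl | rfl <;> simp
  have hnorm : ∏ p ∈ S, (padicNorm p (((x : ℤ) * (σ * y) : ℤ) : ℚ) : ℝ) =
      ((sPart S x : ℕ) : ℝ)⁻¹ * ((sPart S y : ℕ) : ℝ)⁻¹ := by
    rw [← norm_prod hS hx.ne', ← norm_prod hS hy.ne', ← Finset.prod_mul_distrib]
    refine Finset.prod_congr rfl fun p hp => ?_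
    have : Fact p.Prime := ⟨hS p hp⟩
    have h1 : padicNorm p (((x : ℤ) * (σ * y) : ℤ) : ℚ) = padicNorm p x * padicNorm p y := by
      push_cast
      rw [padicNorm.mul, padicNorm.mul]
      rcases hσ with rfl | rfl
      · simp
      · simp
    rw [h1]
    push_cast
    rfl
  rw [habs, hnorm, gq_deg hg] at hmain
  have hcalc : (x : ℝ) * y * (((sPart S x : ℕ) : ℝ)⁻¹ * ((sPart S y : ℕ) : ℝ)⁻¹) ≤
      (x : ℝ) ^ (1 - lam) * (y : ℝ) ^ (1 - κ) := by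
    have h1 : (x : ℝ) * y * (((sPart S x : ℕ) : ℝ)⁻¹ * ((sPart S y : ℕ) : ℝ)⁻¹) =
        (x * ((sPart S x : ℕ) : ℝ)⁻¹) * (y * ((sPart S y : ℕ) : ℝ)⁻¹) := by
      ring
    rw [h1, Real.rpow_sub hyR, Real.rpow_one, Real.rpow_sub hxR, Real.rpow_one, div_eq_mul_inv,
      div_eq_mul_inv]
    have h2 : (x : ℝ) * ((sPart S x : ℕ) : ℝ)⁻¹ ≤ x * ((x : ℝ) ^ lam)⁻¹ :=
      mul_le_mul_of_nonneg_left (inv_anti₀ (by positivity) hxS) hxR.le
    have h3 : (y : ℝ) * ((sPart S y : ℕ) : ℝ)⁻¹ ≤ y * ((y : ℝ) ^ κ)⁻¹ :=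
      mul_le_mul_of_nonneg_left (inv_anti₀ (by positivity) hyS) hyR.le
    exact mul_le_mul h2 h3 (by positivity) (by positivity)
  have hyH : (y : ℝ) ≤ 2 * H ^ g := by
    have h1 : ((x : ℝ) ^ g + τ * (z : ℝ) ^ g) = σ * y := by exact_mod_cast heq
    have h2 : |(σ : ℝ) * y| = y := by
      rw [abs_mul, abs_of_pos hyR]
      rcases hσ with rfl | rfl <;> simp
    rw [← h2, ← h1]
    calc |(x : ℝ) ^ g + τ * (z : ℝ) ^ g| ≤ |(x : ℝ) ^ g| + |τ * (z : ℝ) ^ g| := abs_add_le _ _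
      _ = (x : ℝ) ^ g + (z : ℝ) ^ g := by
        rw [abs_mul, abs_of_pos (show (0 : ℝ) < (x : ℝ) ^ g by positivity),
          abs_of_pos (show (0 : ℝ) < (z : ℝ) ^ g by positivity)]
        rcases hτ with rfl | rfl <;> simp
      _ ≤ H ^ g + H ^ g := by
        have h3 : (x : ℝ) ^ g ≤ H ^ g := pow_le_pow_left₀ hxR.le hHx g
        have h4 : (z : ℝ) ^ g ≤ H ^ g := pow_le_pow_left₀ hzR.le hHz g
        linarith
      _ = 2 * H ^ g := by ring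
  have hxκ : (x : ℝ) ^ (1 - lam) ≤ H ^ (1 - lam) :=
    Real.rpow_le_rpow hxR.le hHx (by linarith)
  have hyκ2 : (y : ℝ) ^ (1 - κ) ≤ 2 * H ^ ((g : ℝ) * (1 - κ)) := by
    calc (y : ℝ) ^ (1 - κ) ≤ (2 * H ^ g) ^ (1 - κ) :=
          Real.rpow_le_rpow hyR.le hyH (by linarith)
      _ = 2 ^ (1 - κ) * H ^ ((g : ℝ) * (1 - κ)) := by
        rw [Real.mul_rpow (by norm_num) (by positivity), ← Real.rpow_natCast,
          ← Real.rpow_mul hH0.le]
      _ ≤ 2 * H ^ ((g : ℝ) * (1 - κ)) := by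
        refine mul_le_mul_of_nonneg_right ?_ (by positivity)
        calc (2 : ℝ) ^ (1 - κ) ≤ 2 ^ (1 : ℝ) :=
              Real.rpow_le_rpow_of_exponent_le (by norm_num) (by linarith)
          _ = 2 := Real.rpow_one 2
  have h7 : c₀ * H ^ (((g + 1 : ℕ) : ℝ) - 2 - ε) ≤
      H ^ (1 - lam) * (2 * H ^ ((g : ℝ) * (1 - κ))) :=
    hmain.trans (hcalc.trans (mul_le_mul hxκ hyκ2 (by positivity) (by positivity)))
  have h8 : H ^ ε ≤ 2 / c₀ := by
    have h9 : H ^ (((g + 1 : ℕ) : ℝ) - 2 - ε) =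
        H ^ (1 - lam) * H ^ ((g : ℝ) * (1 - κ)) * H ^ ε := by
      rw [← Real.rpow_add hH0, ← Real.rpow_add hH0]
      congr 1
      push_cast
      rw [hε]
      ring
    rw [h9] at h7
    have hp : 0 < H ^ (1 - lam) * H ^ ((g : ℝ) * (1 - κ)) :=
      mul_pos (Real.rpow_pos_of_pos hH0 _) (Real.rpow_pos_of_pos hH0 _)
    rw [le_div_iff₀ hc₀]
    by_contra hcon
    rw [not_le] at hcon
    have := mul_lt_mul_of_pos_right hcon hp
    nlinarith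
  have h10 : H ≤ B := by
    refine le_trans ?_ hB
    have h11 : H = (H ^ ε) ^ (1 / ε) := by
      rw [← Real.rpow_mul hH0.le, mul_one_div_cancel hε0.ne', Real.rpow_one]
    rw [h11]
    exact Real.rpow_le_rpow (by positivity) h8 (by positivity)
  exact ⟨by exact_mod_cast hHx.trans h10, by exact_mod_cast hHz.trans h10⟩

end Pool.Agent.K1H94.G
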