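import Mathlib
import Pool.Agent.TH888.G.Uniq1
import Pool.Agent.TH888.G.QBD
import Pool.Agent.K1H94.P.Final

/-!
The exponents of two bases have a large common divisor `g`, the third base has a large `S`-part:
the case of large `g` (elementary).
-/

set_option autoImplicit false

namespace Pool.Agent.K1H94.G

open Pool.Agent.K1H94.P (sPart)

/-- the `p`-part of `X ^ g ± Z ^ g` -/
theorem p_part {p g y x z : ℕ} (hp : p.Prime) (hg : 0 < g) (hx : ¬ p ∣ x) (hz : ¬ p ∣ z)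
    (hxz : x ≠ z) {τ : ℤ} (hτ : τ = 1 ∨ τ = -1)
    (hd : (p : ℤ) ^ y ∣ (x : ℤ) ^ g + τ * (z : ℤ) ^ g) :
    p ^ y ≤ g * (max x z) ^ (2 * (p * (p - 1))) := by
  have : Fact p.Prime := ⟨hp⟩
  set e := 2 * (p * (p - 1)) with he
  have hp1 : 0 < p - 1 := Nat.sub_pos_of_lt hp.one_lt
  have he0 : 0 < e := by
    rw [he]
    have := Nat.mul_pos hp.pos hp1
    omega
  have hcong : ∀ w : ℕ, ¬ p ∣ w → (p : ℤ) ^ 2 ∣ (w : ℤ) ^ e - 1 := by
    intro w hw
    have hc : Nat.Coprime w (p ^ 2) := (Nat.Coprime.pow_right 2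
      ((Nat.Prime.coprime_iff_not_dvd hp).2 hw).symm)
    have h1 := Nat.ModEq.pow_totient hc
    rw [Nat.totient_prime_pow hp (by norm_num)] at h1
    have h2 : w ^ e ≡ 1 [MOD p ^ 2] := by
      have h3 := h1.pow 2
      rw [one_pow, ← pow_mul] at h3
      have h4 : p ^ (2 - 1) * (p - 1) * 2 = e := by
        rw [he]
        ring
      rwa [h4] at h3
    have h5 := (Nat.modEq_iff_dvd.1 h2.symm)
    push_cast at h5
    exact h5
  have hdiff : (p : ℤ) ^ 2 ∣ (x : ℤ) ^ e - (z : ℤ) ^ e := by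
    have h1 := dvd_sub (hcong x hx) (hcong z hz)
    have h2 : ((x : ℤ) ^ e - 1) - ((z : ℤ) ^ e - 1) = (x : ℤ) ^ e - (z : ℤ) ^ e := by ring
    rwa [h2] at h1
  have hxe : ¬ (p : ℤ) ∣ (x : ℤ) ^ e := by
    intro h
    have h1 : p ∣ x ^ e := by exact_mod_cast h
    exact hx (hp.dvd_of_dvd_pow h1)
  have hbig : (p : ℤ) ^ y ∣ ((x : ℤ) ^ e) ^ g - ((z : ℤ) ^ e) ^ g := by
    have h1 : ((x : ℤ) ^ g + τ * (z : ℤ) ^ g) ∣ ((x : ℤ) ^ g) ^ 2 - ((z : ℤ) ^ g) ^ 2 := by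
      rcases hτ with rfl | rfl
      · exact ⟨(x : ℤ) ^ g - (z : ℤ) ^ g, by ring⟩
      · exact ⟨(x : ℤ) ^ g + (z : ℤ) ^ g, by ring⟩
    have h2 : ((x : ℤ) ^ g) ^ 2 - ((z : ℤ) ^ g) ^ 2 ∣
        (((x : ℤ) ^ g) ^ 2) ^ (p * (p - 1)) - (((z : ℤ) ^ g) ^ 2) ^ (p * (p - 1)) :=
      sub_dvd_pow_sub_pow _ _ _
    have h3 : ∀ w : ℤ, ((w ^ g) ^ 2) ^ (p * (p - 1)) = (w ^ e) ^ g := by
      intro w
      rw [← pow_mul, ← pow_mul, ← pow_mul, he]
      congr 1
      ring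
    rw [h3, h3] at h2
    exact hd.trans (h1.trans h2)
  have hkey := Pool.Agent.TH888.G.lte_gap hp hg hxe hdiff hbig
  have hne : (x : ℤ) ^ e - (z : ℤ) ^ e ≠ 0 := by
    intro h
    have h1 : (x : ℤ) ^ e = (z : ℤ) ^ e := sub_eq_zero.1 h
    have h2 : x ^ e = z ^ e := by exact_mod_cast h1
    exact hxz (Nat.pow_left_injective he0.ne' h2)
  have hle : p ^ (y - padicValNat p g) ≤ (max x z) ^ e := by
    have h1 := Int.le_of_dvd (abs_pos.2 hne) ((dvd_abs _ _).2 hkey)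
    have h2 : |(x : ℤ) ^ e - (z : ℤ) ^ e| ≤ ((max x z : ℕ) : ℤ) ^ e := by
      have hx1 : (x : ℤ) ^ e ≤ ((max x z : ℕ) : ℤ) ^ e :=
        pow_le_pow_left₀ (by positivity) (by exact_mod_cast le_max_left x z) e
      have hz1 : (z : ℤ) ^ e ≤ ((max x z : ℕ) : ℤ) ^ e :=
        pow_le_pow_left₀ (by positivity) (by exact_mod_cast le_max_right x z) e
      have hx0 : (0 : ℤ) ≤ (x : ℤ) ^ e := by positivity
      have hz0 : (0 : ℤ) ≤ (z : ℤ) ^ e := by positivity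
      rw [abs_le]
      constructor <;> linarith
    have h3 := h1.trans h2
    exact_mod_cast h3
  have hpg : p ^ padicValNat p g ≤ g := Nat.le_of_dvd hg pow_padicValNat_dvd
  calc p ^ y ≤ p ^ (padicValNat p g + (y - padicValNat p g)) :=
        Nat.pow_le_pow_right hp.pos (by omega)
    _ = p ^ padicValNat p g * p ^ (y - padicValNat p g) := pow_add _ _ _
    _ ≤ g * (max x z) ^ e := Nat.mul_le_mul hpg hle

/-- the lower bound for `X ^ g ± Z ^ g` -/
theorem lower {g x z y : ℕ} (hg : 1 ≤ g) (hx : 0 < x) (hz : 0 < z) (hxz : x ≠ z) {τ σ : ℤ}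
    (hτ : τ = 1 ∨ τ = -1) (hσ : σ = 1 ∨ σ = -1)
    (heq : (x : ℤ) ^ g + τ * (z : ℤ) ^ g = σ * y) : (max x z) ^ (g - 1) ≤ y := by
  have hgap : ∀ {m n : ℕ}, m < n → m ^ g + n ^ (g - 1) ≤ n ^ g := fun h =>
    Pool.Agent.TH888.G.pow_gap hg h
  have hxg : (0 : ℤ) < (x : ℤ) ^ g := by positivity
  have hzg : (0 : ℤ) < (z : ℤ) ^ g := by positivity
  have hy0 : (0 : ℤ) ≤ (y : ℤ) := by positivity
  rcases lt_or_gt_of_ne hxz with h | h
  · rw [max_eq_right h.le]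
    have h1 := hgap h
    have h2 : (x : ℤ) ^ g + (z : ℤ) ^ (g - 1) ≤ (z : ℤ) ^ g := by exact_mod_cast h1
    have h3 : (z : ℤ) ^ (g - 1) ≤ y := by
      rcases hτ with rfl | rfl <;> rcases hσ with rfl | rfl <;> linarith
    exact_mod_cast h3
  · rw [max_eq_left h.le]
    have h1 := hgap h
    have h2 : (z : ℤ) ^ g + (x : ℤ) ^ (g - 1) ≤ (x : ℤ) ^ g := by exact_mod_cast h1
    have h3 : (x : ℤ) ^ (g - 1) ≤ y := by
      rcases hτ with rfl | rfl <;> rcases hσ with rfl | rfl <;> linarith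
    exact_mod_cast h3

/-- there is no solution with a large `g` apart from `1 + 1 = 2` -/
theorem large_g {κ : ℝ} (hκ0 : 0 < κ) {S : Finset ℕ} (hS : ∀ p ∈ S, p.Prime) :
    ∃ g₀ : ℕ, ∀ (g x z y : ℕ) (τ σ : ℤ), g₀ ≤ g → 0 < x → 0 < z → 0 < y → (τ = 1 ∨ τ = -1) →
      (σ = 1 ∨ σ = -1) → Nat.Coprime x y → Nat.Coprime z y → (y : ℝ) ^ κ ≤ (sPart S y : ℝ) →
      (x : ℤ) ^ g + τ * (z : ℤ) ^ g = σ * y → x = z := by
  set E : ℕ := ∑ p ∈ S, 2 * (p * (p - 1)) with hE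
  set s : ℕ := S.card with hs
  have hlog2 : 0 < Real.log 2 := Real.log_pos (by norm_num)
  obtain ⟨g₀, hg₀⟩ : ∃ g₀ : ℕ, ∀ g : ℕ, g₀ ≤ g → 1 ≤ g ∧
      (s : ℝ) * Real.log g + E * Real.log 2 < κ * ((g : ℝ) - 1) * Real.log 2 ∧
      (E : ℝ) ≤ κ * ((g : ℝ) - 1) := by
    have h1 : Filter.Tendsto (fun g : ℕ => (g : ℝ)) Filter.atTop Filter.atTop :=
      tendsto_natCast_atTop_atTop
    have hc : 0 < κ * Real.log 2 / (2 * (s + 1)) := by positivity
    have h2 := (Real.isLittleO_log_id_atTop.comp_tendsto h1).bound hc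
    have h3 : ∀ᶠ g : ℕ in Filter.atTop, (2 * (E + κ + 1)) / κ ≤ (g : ℝ) :=
      h1.eventually_ge_atTop _
    have h4 : ∀ᶠ g : ℕ in Filter.atTop, 1 ≤ g := Filter.eventually_ge_atTop 1
    obtain ⟨g₀, hg₀⟩ := Filter.eventually_atTop.1 ((h2.and h3).and h4)
    refine ⟨g₀, fun g hg => ?_⟩
    obtain ⟨⟨h5, h6⟩, h7⟩ := hg₀ g hg
    have hgR : (1 : ℝ) ≤ g := by exact_mod_cast h7
    simp only [Function.comp, id] at h5
    rw [Real.norm_of_nonneg (Real.log_nonneg hgR), Real.norm_of_nonneg (by linarith)] at h5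
    have h8 : (s : ℝ) * Real.log g ≤ κ * Real.log 2 / 2 * g := by
      have h9 : (s : ℝ) * Real.log g ≤ (s + 1) * (κ * Real.log 2 / (2 * (s + 1)) * g) := by
        have := Real.log_nonneg hgR
        have hs0 : (0 : ℝ) ≤ s := Nat.cast_nonneg _
        calc (s : ℝ) * Real.log g ≤ (s + 1) * Real.log g := by nlinarith
          _ ≤ _ := mul_le_mul_of_nonneg_left h5 (by positivity)
      refine h9.trans (le_of_eq ?_)
      field_simp
    rw [div_le_iff₀ hκ0] at h6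
    refine ⟨h7, ?_, ?_⟩
    · have h10 : (E : ℝ) + κ + 1 ≤ κ * g / 2 := by linarith
      have h11 := mul_le_mul_of_nonneg_right h10 hlog2.le
      nlinarith
    · have hE0 : (0 : ℝ) ≤ E := Nat.cast_nonneg _
      nlinarith
  refine ⟨g₀, fun g x z y τ σ hg hx hz hy hτ hσ hxy hzy hyS heq => ?_⟩
  by_contra hxz
  obtain ⟨hg1, hlt, -⟩ := hg₀ g hg
  set H := max x z with hH
  have hH2 : 2 ≤ H := by
    rcases lt_or_gt_of_ne hxz with h | h
    · rw [hH, max_eq_right h.le]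
      omega
    · rw [hH, max_eq_left h.le]
      omega
  have hlow := lower hg1 hx hz hxz hτ hσ heq
  rw [← hH] at hlow
  have hup : sPart S y ≤ g ^ s * H ^ E := by
    rw [sPart, hs, hE, ← Finset.prod_const, ← Finset.prod_pow_eq_pow_sum,
      ← Finset.prod_mul_distrib]
    refine Finset.prod_le_prod' fun p hpS => ?_
    have hp := hS p hpS
    by_cases hpy : p ∣ y
    · have hpx : ¬ p ∣ x := fun h => hp.not_dvd_one (hxy ▸ Nat.dvd_gcd h hpy)
      have hpz : ¬ p ∣ z := fun h => hp.not_dvd_one (hzy ▸ Nat.dvd_gcd h hpy)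
      refine p_part hp hg1 hpx hpz hxz hτ ?_
      rw [heq]
      refine Dvd.dvd.mul_left ?_ _
      exact_mod_cast Nat.ordProj_dvd y p
    · rw [Nat.factorization_eq_zero_of_not_dvd hpy, pow_zero]
      exact Nat.mul_pos hg1 (pow_pos (by omega) _)
  have hHR : (2 : ℝ) ≤ H := by exact_mod_cast hH2
  have hlH : Real.log 2 ≤ Real.log H := Real.log_le_log (by norm_num) hHR
  have hyR : (0 : ℝ) < y := by exact_mod_cast hy
  have hgR : (1 : ℝ) ≤ g := by exact_mod_cast hg1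
  have hlg : 0 ≤ Real.log (g : ℝ) := Real.log_nonneg hgR
  have h1 : κ * (((g : ℝ) - 1) * Real.log H) ≤ s * Real.log g + E * Real.log H := by
    have h2 : κ * Real.log y ≤ Real.log (sPart S y) := by
      rw [← Real.log_rpow hyR]
      exact Real.log_le_log (by positivity) hyS
    have h3 : Real.log (sPart S y) ≤ s * Real.log g + E * Real.log H := by
      have h4 : (sPart S y : ℝ) ≤ (g : ℝ) ^ s * (H : ℝ) ^ E := by exact_mod_cast hup
      have h5 : (0 : ℝ) < sPart S y := lt_of_lt_of_le (by positivity) hyS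
      have h6 := Real.log_le_log h5 h4
      rwa [Real.log_mul (by positivity) (by positivity), Real.log_pow, Real.log_pow] at h6
    have h7 : ((g : ℝ) - 1) * Real.log H ≤ Real.log y := by
      have h8 : (H : ℝ) ^ (g - 1) ≤ y := by exact_mod_cast hlow
      have h9 := Real.log_le_log (by positivity) h8
      rw [Real.log_pow, Nat.cast_sub hg1, Nat.cast_one] at h9
      exact h9
    have h10 := mul_le_mul_of_nonneg_left h7 hκ0.le
    linarith
  -- divide by `log H`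
  have h2 : (κ * ((g : ℝ) - 1) - E) * Real.log 2 ≤ (κ * ((g : ℝ) - 1) - E) * Real.log H := by
    refine mul_le_mul_of_nonneg_left hlH ?_
    have := (hg₀ g hg).2.2
    linarith
  nlinarith

end Pool.Agent.K1H94.G
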