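import Mathlib
import Pool.Agent.K1H94.G.Fixed
import Pool.Agent.K1H94.G.Large

/-!
The exponents of two bases have a common divisor `g`, one of these bases has `S`-part at least its
`lam`-th power, the third base has `S`-part at least its `κ`-th power, `lam + κ g > 2`: finiteness.
-/

set_option autoImplicit false

namespace Pool.Agent.K1H94.G

open Pool.Agent.K1H94.P (sPart perm3)
open Pool.Agent.K1H94.R (sPart_pow)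

theorem rich_pow {S : Finset ℕ} {b : ℕ} {κ : ℝ} (n : ℕ) (h : (b : ℝ) ^ κ ≤ (sPart S b : ℝ)) :
    ((b ^ n : ℕ) : ℝ) ^ κ ≤ (sPart S (b ^ n) : ℝ) := by
  rw [sPart_pow]
  push_cast
  rw [← Real.rpow_natCast, ← Real.rpow_mul (Nat.cast_nonneg b), mul_comm, Real.rpow_mul
    (Nat.cast_nonneg b), Real.rpow_natCast]
  exact pow_le_pow_left₀ (by positivity) h n

/-- the values are bounded -/
theorem bound {κ lam : ℝ} (hκ0 : 0 < κ) (hκ1 : κ ≤ 1) (hl1 : lam ≤ 1) {S : Finset ℕ}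
    (hS : ∀ p ∈ S, p.Prime) :
    ∃ W : ℕ, ∀ (g x z y : ℕ) (τ σ : ℤ), 1 ≤ g → 2 < lam + κ * g → 0 < x → 0 < z → 0 < y →
      (τ = 1 ∨ τ = -1) → (σ = 1 ∨ σ = -1) → Nat.Coprime x z → Nat.Coprime x y →
      Nat.Coprime z y → (x : ℝ) ^ lam ≤ (sPart S x : ℝ) → (y : ℝ) ^ κ ≤ (sPart S y : ℝ) →
      (x : ℤ) ^ g + τ * (z : ℤ) ^ g = σ * y → x ^ g ≤ W ∧ z ^ g ≤ W := by
  obtain ⟨g₀, hg₀⟩ := large_g hκ0 hS
  have hsmall : ∀ g : ℕ, ∃ B : ℕ, 1 ≤ g → 2 < lam + κ * g → ∀ (x z y : ℕ) (τ σ : ℤ), 0 < x →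
      0 < z → 0 < y → (τ = 1 ∨ τ = -1) → (σ = 1 ∨ σ = -1) → Nat.Coprime x z →
      (x : ℝ) ^ lam ≤ (sPart S x : ℝ) → (y : ℝ) ^ κ ≤ (sPart S y : ℝ) →
      (x : ℤ) ^ g + τ * (z : ℤ) ^ g = σ * y → x ≤ B ∧ z ≤ B := by
    intro g
    by_cases hg : 1 ≤ g ∧ 2 < lam + κ * g
    · obtain ⟨B₁, hB₁⟩ := fixed_bound hκ0 hκ1 hl1 hg.1 hg.2 hS (Or.inl rfl : (1 : ℤ) = 1 ∨ _)
      obtain ⟨B₂, hB₂⟩ := fixed_bound hκ0 hκ1 hl1 hg.1 hg.2 hS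
        (Or.inr rfl : (-1 : ℤ) = 1 ∨ (-1 : ℤ) = -1)
      refine ⟨max B₁ B₂, fun _ _ x z y τ σ hx hz hy hτ hσ hcop h1 h2 h3 => ?_⟩
      rcases hτ with rfl | rfl
      · obtain ⟨h4, h5⟩ := hB₁ x z y σ hx hz hy hσ hcop h1 h2 h3
        exact ⟨h4.trans (le_max_left _ _), h5.trans (le_max_left _ _)⟩
      · obtain ⟨h4, h5⟩ := hB₂ x z y σ hx hz hy hσ hcop h1 h2 h3
        exact ⟨h4.trans (le_max_right _ _), h5.trans (le_max_right _ _)⟩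
    · exact ⟨0, fun h1 h2 => absurd ⟨h1, h2⟩ hg⟩
  choose B hB using hsmall
  refine ⟨1 + ∑ g ∈ Finset.range g₀, B g ^ g,
    fun g x z y τ σ hg hgκ hx hz hy hτ hσ hxz hxy hzy h1 h2 h3 => ?_⟩
  by_cases hlt : g < g₀
  · obtain ⟨h4, h5⟩ := hB g hg hgκ x z y τ σ hx hz hy hτ hσ hxz h1 h2 h3
    have h6 : B g ^ g ≤ ∑ g ∈ Finset.range g₀, B g ^ g :=
      Finset.single_le_sum (f := fun g => B g ^ g) (fun _ _ => Nat.zero_le _)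
        (Finset.mem_range.2 hlt)
    have h7 := Nat.pow_le_pow_left h4 g
    have h8 := Nat.pow_le_pow_left h5 g
    omega
  · have h4 := hg₀ g x z y τ σ (by omega) hx hz hy hτ hσ hxy hzy h2 h3
    subst h4
    have h5 : x = 1 := by
      rwa [Nat.coprime_self] at hxz
    subst h5
    rw [one_pow]
    omega

/-- **Finiteness.** -/
theorem main (κ lam : ℝ) (hκ0 : 0 < κ) (hκ1 : κ ≤ 1) (hl1 : lam ≤ 1) (S : Finset ℕ)
    (hS : ∀ p ∈ S, p.Prime) :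
    {v : ℕ × ℕ × ℕ | v.1 + v.2.1 = v.2.2 ∧ ∃ x y z p q r : ℕ, 1 ≤ x ∧ 1 ≤ y ∧ 1 ≤ z ∧ 1 ≤ p ∧
      1 ≤ q ∧ 1 ≤ r ∧ Nat.Coprime x y ∧ Nat.Coprime x z ∧ Nat.Coprime y z ∧
      (x : ℝ) ^ lam ≤ (sPart S x : ℝ) ∧ (y : ℝ) ^ κ ≤ (sPart S y : ℝ) ∧
      2 < lam + κ * (Nat.gcd p r : ℕ) ∧
      ({v.1, v.2.1, v.2.2} : Multiset ℕ) = {x ^ p, y ^ q, z ^ r}}.Finite := by
  obtain ⟨W, hW⟩ := bound (lam := lam) hκ0 hκ1 hl1 hS
  have hfin : ((Finset.range (2 * W + 1) ×ˢ Finset.range (2 * W + 1) ×ˢ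
      Finset.range (2 * W + 1) : Finset (ℕ × ℕ × ℕ)) : Set (ℕ × ℕ × ℕ)).Finite :=
    Finset.finite_toSet _
  refine hfin.subset ?_
  rintro ⟨u, v, w⟩ ⟨hsum, x, y, z, p, q, r, hx, hy, hz, hp, hq, hr, hxy, hxz, hyz, h1, h2, h3,
    hmul⟩
  simp only at hsum hmul
  set g := Nat.gcd p r with hg
  have hg1 : 1 ≤ g := Nat.gcd_pos_of_pos_left r hp
  obtain ⟨p', hp'⟩ : g ∣ p := Nat.gcd_dvd_left p r
  obtain ⟨r', hr'⟩ : g ∣ r := Nat.gcd_dvd_right p r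
  have hxp : x ^ p = (x ^ p') ^ g := by
    rw [← pow_mul, mul_comm p' g, ← hp']
  have hzr : z ^ r = (z ^ r') ^ g := by
    rw [← pow_mul, mul_comm r' g, ← hr']
  have key : ∀ τ σ : ℤ, (τ = 1 ∨ τ = -1) → (σ = 1 ∨ σ = -1) →
      (x : ℤ) ^ p + τ * (z : ℤ) ^ r = σ * (y : ℤ) ^ q → x ^ p ≤ W ∧ z ^ r ≤ W := by
    intro τ σ hτ hσ h
    rw [hxp, hzr]
    refine hW g (x ^ p') (z ^ r') (y ^ q) τ σ hg1 h3 (pow_pos hx _) (pow_pos hz _)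
      (pow_pos hy _) hτ hσ (Nat.Coprime.pow _ _ hxz) (Nat.Coprime.pow _ _ hxy)
      (Nat.Coprime.pow _ _ hyz.symm) (rich_pow _ h1) (rich_pow _ h2) ?_
    have e1 : ((x ^ p' : ℕ) : ℤ) ^ g = (x : ℤ) ^ p := by exact_mod_cast hxp.symm
    have e2 : ((z ^ r' : ℕ) : ℤ) ^ g = (z : ℤ) ^ r := by exact_mod_cast hzr.symm
    rw [e1, e2, h]
    push_cast
    rfl
  have fin : w ≤ 2 * W → (u, v, w) ∈ ((Finset.range (2 * W + 1) ×ˢ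
      Finset.range (2 * W + 1) ×ˢ Finset.range (2 * W + 1) : Finset (ℕ × ℕ × ℕ)) :
      Set (ℕ × ℕ × ℕ)) := by
    intro h
    simp only [Finset.coe_product, Finset.coe_range, Set.mem_prod, Set.mem_Iio]
    exact ⟨by omega, by omega, by omega⟩
  rcases perm3 hmul with ⟨h4, h5, h6⟩ | ⟨h4, h5, h6⟩ | ⟨h4, h5, h6⟩ | ⟨h4, h5, h6⟩ |
      ⟨h4, h5, h6⟩ | ⟨h4, h5, h6⟩
  · -- `x ^ p + y ^ q = z ^ r`
    have h7 : x ^ p + y ^ q = z ^ r := by rw [← h4, ← h5, ← h6]; exact hsum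
    have h8 : (x : ℤ) ^ p + (y : ℤ) ^ q = (z : ℤ) ^ r := by exact_mod_cast h7
    obtain ⟨h9, h10⟩ := key (-1) (-1) (Or.inr rfl) (Or.inr rfl) (by linarith)
    exact fin (by omega)
  · -- `x ^ p + z ^ r = y ^ q`
    have h7 : x ^ p + z ^ r = y ^ q := by rw [← h4, ← h5, ← h6]; exact hsum
    have h8 : (x : ℤ) ^ p + (z : ℤ) ^ r = (y : ℤ) ^ q := by exact_mod_cast h7
    obtain ⟨h9, h10⟩ := key 1 1 (Or.inl rfl) (Or.inl rfl) (by linarith)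
    exact fin (by omega)
  · -- `y ^ q + x ^ p = z ^ r`
    have h7 : y ^ q + x ^ p = z ^ r := by rw [← h4, ← h5, ← h6]; exact hsum
    have h8 : (y : ℤ) ^ q + (x : ℤ) ^ p = (z : ℤ) ^ r := by exact_mod_cast h7
    obtain ⟨h9, h10⟩ := key (-1) (-1) (Or.inr rfl) (Or.inr rfl) (by linarith)
    exact fin (by omega)
  · -- `y ^ q + z ^ r = x ^ p`
    have h7 : y ^ q + z ^ r = x ^ p := by rw [← h4, ← h5, ← h6]; exact hsum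
    have h8 : (y : ℤ) ^ q + (z : ℤ) ^ r = (x : ℤ) ^ p := by exact_mod_cast h7
    obtain ⟨h9, h10⟩ := key (-1) 1 (Or.inr rfl) (Or.inl rfl) (by linarith)
    exact fin (by omega)
  · -- `z ^ r + x ^ p = y ^ q`
    have h7 : z ^ r + x ^ p = y ^ q := by rw [← h4, ← h5, ← h6]; exact hsum
    have h8 : (z : ℤ) ^ r + (x : ℤ) ^ p = (y : ℤ) ^ q := by exact_mod_cast h7
    obtain ⟨h9, h10⟩ := key 1 1 (Or.inl rfl) (Or.inl rfl) (by linarith)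
    exact fin (by omega)
  · -- `z ^ r + y ^ q = x ^ p`
    have h7 : z ^ r + y ^ q = x ^ p := by rw [← h4, ← h5, ← h6]; exact hsum
    have h8 : (z : ℤ) ^ r + (y : ℤ) ^ q = (x : ℤ) ^ p := by exact_mod_cast h7
    obtain ⟨h9, h10⟩ := key (-1) 1 (Or.inr rfl) (Or.inl rfl) (by linarith)
    exact fin (by omega)

end Pool.Agent.K1H94.G
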